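import Mathlib

/-!
# MP_08c285_gt : if the small-subsets ballean of a group is normal then `|G|` is regular
-/

namespace Pool.Agent.Results.MP_08c285_gt.SingularNotNormal

open Set Cardinal

universe u

/-- Entourages of the ballean of `G` given by the ideal of subsets of cardinality `< |G|` :
`E ⊆ E_A = {(x, y) | y ∈ x A}` for some symmetric `A ∋ 1` with `|A| < |G|`. -/
def IsEnt {G : Type u} [Group G] (E : Set (G × G)) : Prop :=
  ∃ A : Set G, #A < #G ∧ (1 : G) ∈ A ∧ (∀ a ∈ A, a⁻¹ ∈ A) ∧ ∀ x y, (x, y) ∈ E → x⁻¹ * y ∈ A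

/-- `E[S]` -/
def img {G : Type u} (E : Set (G × G)) (S : Set G) : Set G := {y | ∃ x ∈ S, (x, y) ∈ E}

/-- `P`, `Q` are asymptotically disjoint: `E[P] ∩ E[Q]` is bounded (has cardinality `< |G|`). -/
def AsympDisjoint {G : Type u} [Group G] (P Q : Set G) : Prop :=
  ∀ E : Set (G × G), IsEnt E → #(img E P ∩ img E Q : Set G) < #G

/-- `U` is an asymptotic neighbourhood of `P`. -/
def AsympNbhd {G : Type u} [Group G] (U P : Set G) : Prop :=
  ∀ E : Set (G × G), IsEnt E → #(img E P \ U : Set G) < #G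

/-- The ballean of `G` is normal. -/
def IsNormalBallean (G : Type u) [Group G] : Prop :=
  ∀ P Q : Set G, AsympDisjoint P Q →
    ∃ U V : Set G, AsympNbhd U P ∧ AsympNbhd V Q ∧ AsympDisjoint U V

theorem mk_closure_le {G : Type u} [Group G] (s : Set G) :
    #(Subgroup.closure s) ≤ max #s ℵ₀ := by
  by_cases hs : Nonempty s
  · let f : FreeGroup s →* G := FreeGroup.lift (fun x : s => x.1)
    have h1 : f.range = Subgroup.closure s := by
      rw [MonoidHom.range_eq_map, ← FreeGroup.closure_range_of, MonoidHom.map_closure]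
      congr 1
      ext x
      constructor
      · rintro ⟨_, ⟨y, rfl⟩, rfl⟩
        simp [f]
      · intro hx
        exact ⟨_, ⟨⟨x, hx⟩, rfl⟩, by simp [f]⟩
    rw [← h1, ← mk_freeGroup]
    exact mk_le_of_surjective f.rangeRestrict_surjective
  · have : s = ∅ := by
      rw [nonempty_subtype, not_exists] at hs
      exact eq_empty_iff_forall_notMem.2 hs
    subst this
    rw [Subgroup.closure_empty]
    refine le_trans ?_ (le_max_right _ _)
    exact (mk_le_aleph0 (α := (⊥ : Subgroup G)))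

theorem exists_rec {K X : Type u} [LinearOrder K] [WellFoundedLT K]
    (B : (α : K) → (Iio α → X) → Set X) (hB : ∀ α p, ∃ x, x ∉ B α p) :
    ∃ f : K → X, ∀ α, f α ∉ B α (fun β => f β) := by
  choose c hc using hB
  let f : K → X := WellFounded.fix (wellFounded_lt (α := K)) (fun α ih =>
    c α (fun β => ih β β.2))
  refine ⟨f, fun α => ?_⟩
  have : f α = c α (fun β => f β) := WellFounded.fix_eq _ _ _
  rw [this]
  exact hc α _

section family

variable {G : Type u} [Group G]

/-- index type -/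
abbrev K (G : Type u) : Type u := (#G).ord.ToType

omit [Group G] in
theorem mk_K : #(K G) = #G := by simp

omit [Group G] in
theorem mk_Iio (α : K G) : #(Iio α) < #G := by
  have := mk_Iio_lt α (by simp)
  rwa [mk_K] at this

omit [Group G] in
theorem mk_Iic (hG : ℵ₀ ≤ #G) (α : K G) : #(Iic α) < #G := by
  have h : Iic α = Iio α ∪ {α} := by
    ext x
    simp [le_iff_lt_or_eq]
  rw [h]
  refine (mk_union_le _ _).trans_lt (add_lt_of_lt hG (mk_Iio α) ?_)
  rw [mk_singleton]
  exact one_lt_aleph0.trans_le hG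

omit [Group G] in
theorem exists_notMem_of_lt {X : Type u} {s r : Set X} (h : #s < #r) : ∃ x ∈ r, x ∉ s := by
  by_contra hcon
  push Not at hcon
  exact absurd (mk_le_mk_of_subset hcon) (not_le.2 h)

/-- The family of generators. -/
structure Fam (G : Type u) [Group G] where
  /-- generators -/
  t : K G → G
  /-- index functions -/
  A : K G → K G
  /-- index functions -/
  B : K G → K G
  /-- index functions -/
  W : K G → K G → K G
  indep : ∀ α, t α ∉ Subgroup.closure (t '' Iio α)
  A_inj : Function.Injective A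
  B_inj : Function.Injective B
  AB : ∀ x y, A y ≠ B x
  W_inj : ∀ x y x' y', W x y = W x' y' → x = x' ∧ y = y'
  AW : ∀ x y, A y < W x y
  BW : ∀ x y, B x < W x y

theorem exists_fam (hG : ℵ₀ < #G) : Nonempty (Fam G) := by
  -- generators
  obtain ⟨t, ht⟩ := exists_rec (K := K G) (X := G)
    (fun α p => (Subgroup.closure (range p) : Set G)) (by
      intro α p
      have h1 : #(Subgroup.closure (range p)) < #G :=
        (mk_closure_le _).trans_lt (max_lt (mk_range_le.trans_lt (mk_Iio α)) hG)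
      obtain ⟨x, -, hx⟩ := exists_notMem_of_lt (s := (Subgroup.closure (range p) : Set G))
        (r := univ) (by rw [mk_univ]; exact h1)
      exact ⟨x, hx⟩)
  -- index bijections
  have hK : ℵ₀ ≤ #(K G) := by rw [mk_K]; exact hG.le
  obtain ⟨b⟩ : Nonempty (K G ≃ (K G ⊕ K G) ⊕ K G) := by
    rw [← Cardinal.eq]
    simp only [mk_sum, Cardinal.lift_id]
    rw [add_eq_self hK, add_eq_self hK]
  obtain ⟨e⟩ : Nonempty (K G ≃ K G × K G) := by
    rw [← Cardinal.eq, mk_prod]
    simp only [Cardinal.lift_id]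
    rw [mul_eq_self hK]
  let A : K G → K G := fun y => b.symm (Sum.inl (Sum.inl y))
  let B : K G → K G := fun x => b.symm (Sum.inl (Sum.inr x))
  obtain ⟨W, hW⟩ := exists_rec (K := K G) (X := K G)
    (fun α p => (Iic (A (e α).2) ∪ Iic (B (e α).1)) ∪ range p) (by
      intro α p
      have h1 : #(((Iic (A (e α).2) ∪ Iic (B (e α).1)) ∪ range p : Set (K G))) < #G := by
        refine (mk_union_le _ _).trans_lt (add_lt_of_lt hG.le ?_ ?_)
        · exact (mk_union_le _ _).trans_lt (add_lt_of_lt hG.le (mk_Iic hG.le _) (mk_Iic hG.le _))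
        · exact mk_range_le.trans_lt (mk_Iio α)
      obtain ⟨x, -, hx⟩ := exists_notMem_of_lt
        (s := ((Iic (A (e α).2) ∪ Iic (B (e α).1)) ∪ range p : Set (K G)))
        (r := univ) (by rw [mk_univ, mk_K]; exact h1)
      exact ⟨x, hx⟩)
  have hWinj : Function.Injective W := by
    intro α β hαβ
    by_contra hne
    rcases lt_or_gt_of_ne hne with h | h
    · exact hW β (Or.inr ⟨⟨α, h⟩, hαβ⟩)
    · exact hW α (Or.inr ⟨⟨β, h⟩, hαβ.symm⟩)
  refine ⟨⟨t, A, B, fun x y => W (e.symm (x, y)), ?_, ?_, ?_, ?_, ?_, ?_, ?_⟩⟩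
  · intro α h
    apply ht α
    have : range (fun β : Iio α => t β) = t '' Iio α := by
      rw [image_eq_range]
    rw [this]
    exact h
  · intro y y' h
    have := b.symm.injective h
    simpa using this
  · intro y y' h
    have := b.symm.injective h
    simpa using this
  · intro x y h
    have := b.symm.injective h
    simp at this
  · intro x y x' y' h
    have h1 := e.symm.injective (hWinj h)
    exact Prod.mk.inj h1
  · intro x y
    have h1 := hW (e.symm (x, y))
    rw [Equiv.apply_symm_apply] at h1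
    exact not_le.1 fun h => h1 (Or.inl (Or.inl h))
  · intro x y
    have h1 := hW (e.symm (x, y))
    rw [Equiv.apply_symm_apply] at h1
    exact not_le.1 fun h => h1 (Or.inl (Or.inr h))

variable (F : Fam G)

/-- subgroup generated by the earlier generators -/
def Fam.L (α : K G) : Subgroup G := Subgroup.closure (F.t '' Iio α)

theorem Fam.mem_L {α β : K G} (h : β < α) : F.t β ∈ F.L α :=
  Subgroup.subset_closure ⟨β, h, rfl⟩

theorem Fam.t_inj : Function.Injective F.t := by
  intro α β h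
  by_contra hne
  rcases lt_or_gt_of_ne hne with h' | h'
  · exact F.indep β (h ▸ F.mem_L h')
  · exact F.indep α (h ▸ F.mem_L h')

/-- `w(x,y)` -/
def Fam.w (x y : K G) : G := F.t (F.W x y)
/-- `g(y)` -/
def Fam.g (y : K G) : G := F.t (F.A y)
/-- `h(x)` -/
def Fam.h (x : K G) : G := F.t (F.B x)

/-- the set `P` -/
def Fam.P : Set G := {p | ∃ x y, p = F.w x y * F.g y}
/-- the set `Q` -/
def Fam.Q : Set G := {q | ∃ x y, q = F.w x y * F.h x}

theorem Fam.four {i j k l : K G} (hij : i ≠ j) (hik : i ≠ k) (hil : i ≠ l) (hjk : j ≠ k)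
    (hjl : j ≠ l) (hkl : k ≠ l) (h : (F.t i)⁻¹ * F.t j = (F.t k)⁻¹ * F.t l) : False := by
  -- the maximal index
  have hm : ∃ m, (m = i ∨ m = j ∨ m = k ∨ m = l) ∧ i ≤ m ∧ j ≤ m ∧ k ≤ m ∧ l ≤ m := by
    refine ⟨max (max i j) (max k l), ?_, by simp, by simp, by simp, by simp⟩
    rcases max_choice (max i j) (max k l) with h1 | h1 <;> rw [h1]
    · rcases max_choice i j with h2 | h2 <;> rw [h2] <;> simp
    · rcases max_choice k l with h2 | h2 <;> rw [h2] <;> simp
  obtain ⟨m, hm, hi, hj, hk, hl⟩ := hm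
  rcases hm with rfl | rfl | rfl | rfl
  · have e : F.t m = F.t j * ((F.t l)⁻¹ * F.t k) := by
      have : F.t j = F.t m * ((F.t k)⁻¹ * F.t l) := by rw [← h]; group
      rw [this]; group
    apply F.indep m
    rw [e]
    have h1 := F.mem_L (lt_of_le_of_ne hj hij.symm)
    have h2 := F.mem_L (lt_of_le_of_ne hk hik.symm)
    have h3 := F.mem_L (lt_of_le_of_ne hl hil.symm)
    exact mul_mem h1 (mul_mem (inv_mem h3) h2)
  · have e : F.t m = F.t i * ((F.t k)⁻¹ * F.t l) := by rw [← h]; group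
    apply F.indep m
    rw [e]
    have h1 := F.mem_L (lt_of_le_of_ne hi hij)
    have h2 := F.mem_L (lt_of_le_of_ne hk hjk.symm)
    have h3 := F.mem_L (lt_of_le_of_ne hl hjl.symm)
    exact mul_mem h1 (mul_mem (inv_mem h2) h3)
  · have e : F.t m = F.t l * ((F.t j)⁻¹ * F.t i) := by
      have : F.t l = F.t m * ((F.t i)⁻¹ * F.t j) := by rw [h]; group
      rw [this]; group
    apply F.indep m
    rw [e]
    have h1 := F.mem_L (lt_of_le_of_ne hi hik)
    have h2 := F.mem_L (lt_of_le_of_ne hj hjk)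
    have h3 := F.mem_L (lt_of_le_of_ne hl hkl.symm)
    exact mul_mem h3 (mul_mem (inv_mem h2) h1)
  · have e : F.t m = F.t k * ((F.t i)⁻¹ * F.t j) := by rw [h]; group
    apply F.indep m
    rw [e]
    have h1 := F.mem_L (lt_of_le_of_ne hi hil)
    have h2 := F.mem_L (lt_of_le_of_ne hj hjl)
    have h3 := F.mem_L (lt_of_le_of_ne hk hkl)
    exact mul_mem h3 (mul_mem (inv_mem h1) h2)

/-- diagonal pairs are determined by the quotient -/
theorem Fam.diag_inj {x y x' y' : K G} (h : (F.g y)⁻¹ * F.h x = (F.g y')⁻¹ * F.h x') :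
    x = x' ∧ y = y' := by
  by_cases hx : x = x'
  · subst hx
    refine ⟨rfl, ?_⟩
    have : F.g y = F.g y' := by
      have h1 := mul_right_cancel h
      exact inv_injective h1
    exact F.A_inj (F.t_inj this)
  · by_cases hy : y = y'
    · subst hy
      exact absurd (F.B_inj (F.t_inj (mul_left_cancel h))) hx
    · exact absurd h (fun h => F.four (F.AB x y) (fun h' => hy (F.A_inj h')) (F.AB x' y)
        (fun h' => F.AB x y' h'.symm) (fun h' => hx (F.B_inj h')) (F.AB x' y') h)

/-- the quotient `p⁻¹ q` -/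
def Fam.quo (x y x' y' : K G) : G := (F.w x y * F.g y)⁻¹ * (F.w x' y' * F.h x')

/-- membership in the subgroup generated by earlier elements -/
theorem Fam.quo_mem {x y x' y' m : K G} (h1 : F.W x y < m) (h2 : F.W x' y' < m) :
    F.quo x y x' y' ∈ F.L m := by
  have a1 := F.mem_L h1
  have a2 := F.mem_L h2
  have a3 := F.mem_L ((F.AW x y).trans h1)
  have a4 := F.mem_L ((F.BW x' y').trans h2)
  exact mul_mem (inv_mem (mul_mem a1 a3)) (mul_mem a2 a4)

theorem Fam.left_inj {x y x' y' a b a' b' : K G} (h1 : F.W x' y' < F.W x y)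
    (h2 : F.W a' b' < F.W a b) (h : F.quo x y x' y' = F.quo a b a' b') : x = a ∧ y = b := by
  have key : ∀ {x y x' y' a b a' b' : K G}, F.W x' y' < F.W x y → F.W a' b' < F.W a b →
      F.quo x y x' y' = F.quo a b a' b' → ¬ F.W a b < F.W x y := by
    intro x y x' y' a b a' b' h1 h2 h hlt
    have h3 : F.quo a b a' b' ∈ F.L (F.W x y) := F.quo_mem hlt (h2.trans hlt)
    have a2 := F.mem_L h1
    have a3 := F.mem_L (F.AW x y)
    have a4 := F.mem_L ((F.BW x' y').trans h1)
    apply F.indep (F.W x y)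
    have e : F.t (F.W x y) =
        (F.w x' y' * F.h x') * (F.quo a b a' b')⁻¹ * (F.g y)⁻¹ := by
      rw [← h]
      unfold Fam.quo
      change F.w x y = _
      group
    rw [e]
    exact mul_mem (mul_mem (mul_mem a2 a4) (inv_mem h3)) (inv_mem a3)
  have h3 := key h1 h2 h
  have h4 := key h2 h1 h.symm
  exact F.W_inj _ _ _ _ (le_antisymm (not_lt.1 h3) (not_lt.1 h4))

theorem Fam.right_inj {x y x' y' a b a' b' : K G} (h1 : F.W x y < F.W x' y')
    (h2 : F.W a b < F.W a' b') (h : F.quo x y x' y' = F.quo a b a' b') : x' = a' ∧ y' = b' := by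
  have key : ∀ {x y x' y' a b a' b' : K G}, F.W x y < F.W x' y' → F.W a b < F.W a' b' →
      F.quo x y x' y' = F.quo a b a' b' → ¬ F.W a' b' < F.W x' y' := by
    intro x y x' y' a b a' b' h1 h2 h hlt
    have h3 : F.quo a b a' b' ∈ F.L (F.W x' y') := F.quo_mem (h2.trans hlt) hlt
    have a2 := F.mem_L h1
    have a3 := F.mem_L ((F.AW x y).trans h1)
    have a4 := F.mem_L (F.BW x' y')
    apply F.indep (F.W x' y')
    have e : F.t (F.W x' y') =
        (F.w x y * F.g y) * F.quo a b a' b' * (F.h x')⁻¹ := by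
      rw [← h]
      unfold Fam.quo
      change F.w x' y' = _
      group
    rw [e]
    exact mul_mem (mul_mem (mul_mem a2 a3) h3) (inv_mem a4)
  have h3 := key h1 h2 h
  have h4 := key h2 h1 h.symm
  exact F.W_inj _ _ _ _ (le_antisymm (not_lt.1 h3) (not_lt.1 h4))

/-- The set of `p ∈ P` for which some `q ∈ Q` lies in `p H`. -/
def Fam.bad (H : Set G) : Set G := {p | ∃ x y x' y', p = F.w x y * F.g y ∧ F.quo x y x' y' ∈ H}

theorem Fam.mk_bad_le (H : Set G) : #(F.bad H) ≤ #(H × ULift.{u} (Fin 3)) := by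
  have hp : ∀ p : F.bad H, ∃ x y x' y', p.1 = F.w x y * F.g y ∧ F.quo x y x' y' ∈ H :=
    fun p => p.2
  choose x y x' y' hp hq using hp
  let tag : F.bad H → Fin 3 := fun p =>
    if F.W (x p) (y p) = F.W (x' p) (y' p) then 0
    else if F.W (x' p) (y' p) < F.W (x p) (y p) then 1 else 2
  refine mk_le_of_injective (f := fun p => (⟨F.quo (x p) (y p) (x' p) (y' p), hq p⟩,
    ULift.up (tag p))) ?_
  intro p r h
  simp only [Prod.mk.injEq, Subtype.mk.injEq, ULift.up.injEq] at h
  obtain ⟨h1, h2⟩ := h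
  apply Subtype.ext
  by_cases hp1 : F.W (x p) (y p) = F.W (x' p) (y' p)
  · have hr1 : F.W (x r) (y r) = F.W (x' r) (y' r) := by
      by_contra hne
      simp only [tag, if_pos hp1, if_neg hne] at h2
      split_ifs at h2 <;> exact absurd h2 (by decide)
    obtain ⟨e1, e2⟩ := F.W_inj _ _ _ _ hp1
    obtain ⟨e3, e4⟩ := F.W_inj _ _ _ _ hr1
    have h3 : (F.g (y p))⁻¹ * F.h (x p) = (F.g (y r))⁻¹ * F.h (x r) := by
      have a1 : F.quo (x p) (y p) (x' p) (y' p) = (F.g (y p))⁻¹ * F.h (x p) := by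
        unfold Fam.quo
        rw [← e1, ← e2]
        group
      have a2 : F.quo (x r) (y r) (x' r) (y' r) = (F.g (y r))⁻¹ * F.h (x r) := by
        unfold Fam.quo
        rw [← e3, ← e4]
        group
      rw [← a1, ← a2, h1]
    obtain ⟨e5, e6⟩ := F.diag_inj h3
    rw [hp, hp, e5, e6]
  · by_cases hp2 : F.W (x' p) (y' p) < F.W (x p) (y p)
    · have hr : F.W (x' r) (y' r) < F.W (x r) (y r) := by
        by_contra hne
        simp only [tag, if_neg hp1, if_pos hp2, if_neg hne] at h2
        split_ifs at h2 <;> exact absurd h2 (by decide)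
      obtain ⟨e5, e6⟩ := F.left_inj hp2 hr h1
      rw [hp, hp, e5, e6]
    · have hr1 : ¬ F.W (x r) (y r) = F.W (x' r) (y' r) := by
        intro hne
        simp only [tag, if_neg hp1, if_neg hp2, if_pos hne] at h2
        exact absurd h2 (by decide)
      have hr2 : ¬ F.W (x' r) (y' r) < F.W (x r) (y r) := by
        intro hne
        simp only [tag, if_neg hp1, if_neg hp2, if_neg hr1, if_pos hne] at h2
        exact absurd h2 (by decide)
      have hp3 := lt_of_le_of_ne (not_lt.1 hp2) hp1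
      have hr3 := lt_of_le_of_ne (not_lt.1 hr2) hr1
      obtain ⟨e5, e6⟩ := F.right_inj hp3 hr3 h1
      have h4 : F.quo (x p) (y p) (x' p) (y' p) = F.quo (x r) (y r) (x' r) (y' r) := h1
      unfold Fam.quo at h4
      rw [e5, e6] at h4
      have h5 := inv_injective (mul_right_cancel h4)
      rw [hp, hp]
      exact h5

theorem Fam.asympDisjoint (hG : ℵ₀ < #G) : AsympDisjoint F.P F.Q := by
  rintro E ⟨A, hA, hA1, hAinv, hE⟩
  let H : Set G := (Subgroup.closure A : Set G)
  have hH : #H < #G := (mk_closure_le A).trans_lt (max_lt hA hG)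
  have hbad : #(F.bad H) < #G := by
    refine (F.mk_bad_le H).trans_lt ?_
    rw [mk_prod]
    simp only [Cardinal.lift_id]
    refine mul_lt_of_lt hG.le hH ?_
    refine lt_of_lt_of_le ?_ hG.le
    exact lt_aleph0_of_finite _
  have hsub : (img E F.P ∩ img E F.Q : Set G) ⊆ (fun z : G × G => z.1 * z.2) '' (F.bad H ×ˢ A) := by
    rintro z ⟨⟨p, ⟨x, y, hp⟩, hpz⟩, ⟨q, ⟨x', y', hq⟩, hqz⟩⟩
    have h1 := hE _ _ hpz
    have h2 := hE _ _ hqz
    refine ⟨(p, p⁻¹ * z), ⟨⟨x, y, x', y', hp, ?_⟩, h1⟩, by simp⟩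
    have h3 : F.quo x y x' y' = (p⁻¹ * z) * (q⁻¹ * z)⁻¹ := by
      unfold Fam.quo
      rw [← hp, ← hq]
      group
    rw [h3]
    exact mul_mem (Subgroup.subset_closure h1) (inv_mem (Subgroup.subset_closure h2))
  refine (mk_le_mk_of_subset hsub).trans_lt (mk_image_le.trans_lt ?_)
  rw [mk_setProd]
  exact mul_lt_of_lt hG.le hbad hA

end family

theorem result (G : Type u) [Group G] [Infinite G] (hN : IsNormalBallean G) :
    (#G).IsRegular := by
  have hG0 : ℵ₀ ≤ #G := aleph0_le_mk G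
  refine ⟨hG0, ?_⟩
  by_contra hcof
  rw [not_le] at hcof
  have hG : ℵ₀ < #G := by
    refine lt_of_le_of_ne hG0 fun h => ?_
    rw [← h] at hcof
    simp at hcof
  obtain ⟨F⟩ := exists_fam hG
  obtain ⟨U, V, hU, hV, hUV⟩ := hN F.P F.Q (F.asympDisjoint hG)
  -- the entourage of a small set
  have hent : ∀ A : Set G, #A < #G → IsEnt {z : G × G | z.1⁻¹ * z.2 ∈
      (A ∪ {a | a⁻¹ ∈ A}) ∪ {1}} := by
    intro A hA
    refine ⟨_, ?_, Or.inr rfl, ?_, fun x y h => h⟩
    · refine (mk_union_le _ _).trans_lt (add_lt_of_lt hG.le ?_ ?_)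
      · refine (mk_union_le _ _).trans_lt (add_lt_of_lt hG.le hA ?_)
        refine lt_of_le_of_lt ?_ hA
        exact mk_preimage_of_injective (fun a : G => a⁻¹) A inv_injective
      · rw [mk_singleton]
        exact one_lt_aleph0.trans_le hG.le
    · rintro a ((ha | ha) | ha)
      · exact Or.inl (Or.inr (by rw [mem_ofPred_eq, inv_inv]; exact ha))
      · exact Or.inl (Or.inl ha)
      · rw [mem_singleton_iff] at ha
        subst ha
        exact Or.inr (by simp)
  -- for a small set `C` of `y`s, the set of `x` with some bad `w(x,y)` is small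
  let BC : Set (K G) → Set (K G) := fun C => {x | ∃ y ∈ C, F.w x y ∉ U}
  let CB : Set (K G) → Set (K G) := fun B => {y | ∃ x ∈ B, F.w x y ∉ V}
  have hBC : ∀ C : Set (K G), #C < #G → #(BC C) < #G := by
    intro C hC
    have h1 := hU _ (hent (F.g '' C) (mk_image_le.trans_lt hC))
    refine lt_of_le_of_lt ?_ h1
    have hx : ∀ x : BC C, ∃ y ∈ C, F.w x y ∉ U := fun x => x.2
    choose y hy hyU using hx
    refine mk_le_of_injective (f := fun x => ⟨F.w x (y x), ⟨F.w x (y x) * F.g (y x),
      ⟨x, y x, rfl⟩, ?_⟩, hyU x⟩) ?_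
    · refine Or.inl (Or.inr ?_)
      change (((F.w x (y x) * F.g (y x))⁻¹ * F.w x (y x)))⁻¹ ∈ F.g '' C
      refine ⟨y x, hy x, ?_⟩
      group
    · intro x x' h
      have h2 : F.w x (y x) = F.w x' (y x') := congrArg Subtype.val h
      exact Subtype.ext (F.W_inj _ _ _ _ (F.t_inj h2)).1
  have hCB : ∀ B : Set (K G), #B < #G → #(CB B) < #G := by
    intro B hB
    have h1 := hV _ (hent (F.h '' B) (mk_image_le.trans_lt hB))
    refine lt_of_le_of_lt ?_ h1
    have hy : ∀ y : CB B, ∃ x ∈ B, F.w x y ∉ V := fun y => y.2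
    choose x hx hxV using hy
    refine mk_le_of_injective (f := fun y => ⟨F.w (x y) y, ⟨F.w (x y) y * F.h (x y),
      ⟨x y, y, rfl⟩, ?_⟩, hxV y⟩) ?_
    · refine Or.inl (Or.inr ?_)
      change (((F.w (x y) y * F.h (x y))⁻¹ * F.w (x y) y))⁻¹ ∈ F.h '' B
      refine ⟨x y, hx y, ?_⟩
      group
    · intro y y' h
      have h2 : F.w (x y) y = F.w (x y') y' := congrArg Subtype.val h
      exact Subtype.ext (F.W_inj _ _ _ _ (F.t_inj h2)).2
  -- the exceptional set
  let XZ : Set (K G) := {x | ∃ y, F.w x y ∈ U ∩ V}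
  have hXZ : #XZ < #G := by
    have h1 := hUV {z : G × G | z.1 = z.2} ⟨{1}, by
      rw [mk_singleton]
      exact one_lt_aleph0.trans hG, rfl, by
      rintro a ha
      rw [mem_singleton_iff] at ha ⊢
      rw [ha, inv_one], by
      rintro x y h
      have h : x = y := h
      rw [h]
      simp⟩
    have h2 : (img {z : G × G | z.1 = z.2} U ∩ img {z : G × G | z.1 = z.2} V : Set G) = U ∩ V := by
      ext z
      constructor
      · rintro ⟨⟨a, ha, haz⟩, ⟨b, hb, hbz⟩⟩
        have haz : a = z := haz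
        have hbz : b = z := hbz
        subst haz
        subst hbz
        exact ⟨ha, hb⟩
      · rintro ⟨h1, h2⟩
        exact ⟨⟨z, h1, rfl⟩, ⟨z, h2, rfl⟩⟩
    rw [h2] at h1
    refine lt_of_le_of_lt ?_ h1
    have hx : ∀ x : XZ, ∃ y, F.w x y ∈ U ∩ V := fun x => x.2
    choose y hy using hx
    refine mk_le_of_injective (f := fun x => ⟨F.w x (y x), hy x⟩) ?_
    intro x x' h
    have h2 : F.w x (y x) = F.w x' (y x') := congrArg Subtype.val h
    exact Subtype.ext (F.W_inj _ _ _ _ (F.t_inj h2)).1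
  -- a small cofinal set
  obtain ⟨S, hS, hScof⟩ := Order.exists_cof_eq (α := K G)
  have hS' : #S < #G := by
    rw [hScof, Ordinal.cof_toType]
    exact hcof
  have hb : ∀ s : S, ∃ b : K G, b ∉ BC (Iic s.1) ∪ XZ := by
    intro s
    have h1 : #(BC (Iic s.1) ∪ XZ : Set (K G)) < #G :=
      (mk_union_le _ _).trans_lt (add_lt_of_lt hG.le (hBC _ (mk_Iic hG.le _)) hXZ)
    obtain ⟨x, -, hx⟩ := exists_notMem_of_lt (s := (BC (Iic s.1) ∪ XZ : Set (K G)))
      (r := univ) (by rw [mk_univ, mk_K]; exact h1)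
    exact ⟨x, hx⟩
  choose b hb using hb
  have h1 : #(range b) < #G := mk_range_le.trans_lt hS'
  have h2 := hCB (range b) h1
  have h3 : CB (range b) = Set.univ := by
    rw [eq_univ_iff_forall]
    intro y
    obtain ⟨s, hs, hys⟩ := hS y
    refine ⟨b ⟨s, hs⟩, mem_range_self _, fun hV' => ?_⟩
    have h4 := hb ⟨s, hs⟩
    apply h4
    right
    refine ⟨y, ?_, hV'⟩
    by_contra hU'
    exact h4 (Or.inl ⟨y, hys, hU'⟩)
  rw [h3, mk_univ, mk_K] at h2
  exact lt_irrefl _ h2

end Pool.Agent.Results.MP_08c285_gt.SingularNotNormal
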